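import Pool.Agent.W425.BM.Stm

namespace Pool.Agent.W818.BM

open Polynomial

/-- evaluation of the coefficients at `1 / p` -/
noncomputable abbrev ps (p : ℕ) : ℤ[X] →+* ℂ :=
  Polynomial.eval₂RingHom (Int.castRingHom ℂ) (p : ℂ)⁻¹

/-- the core: `D` with constant coefficient one divides `A` as soon as it does so at `X = 1/p`. -/
lemma core (D A : ℤ[X][X]) (hD : D.coeff 0 = 1)
    (h : ∀ p : ℕ, 2 ≤ p → ∃ q : ℂ[X], A.map (ps p) = D.map (ps p) * q) :
    D ∣ A := by
  classical
  set Q : PowerSeries ℤ[X] := (A : PowerSeries ℤ[X]) * PowerSeries.invOfUnit (D : PowerSeries ℤ[X]) 1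
    with hQ
  have hDc : PowerSeries.constantCoeff (D : PowerSeries ℤ[X]) = ((1 : (ℤ[X])ˣ) : ℤ[X]) := by
    rw [← PowerSeries.coeff_zero_eq_constantCoeff_apply, Polynomial.coeff_coe, hD, Units.val_one]
  have hQD : (D : PowerSeries ℤ[X]) * Q = A := by
    rw [hQ, mul_left_comm, PowerSeries.mul_invOfUnit _ _ hDc, mul_one]
  have hvan : ∀ n, A.natDegree < n → PowerSeries.coeff n Q = 0 := by
    intro n hn
    have hroot : ∀ p : ℕ, 2 ≤ p → ps p (PowerSeries.coeff n Q) = 0 := by
      intro p hp
      obtain ⟨q, hq⟩ := h p hp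
      set ψ : ℤ[X] →+* ℂ := ps p with hψ
      have h1 : PowerSeries.map ψ (D : PowerSeries ℤ[X]) * PowerSeries.map ψ Q
          = PowerSeries.map ψ (D : PowerSeries ℤ[X]) * (q : PowerSeries ℂ) := by
        rw [← map_mul, hQD]
        have e1 : PowerSeries.map ψ (A : PowerSeries ℤ[X]) = ((A.map ψ : ℂ[X]) : PowerSeries ℂ) := by
          ext k
          rw [PowerSeries.coeff_map, Polynomial.coeff_coe, Polynomial.coeff_coe,
            Polynomial.coeff_map]
        have e2 : PowerSeries.map ψ (D : PowerSeries ℤ[X]) = ((D.map ψ : ℂ[X]) : PowerSeries ℂ) := by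
          ext k
          rw [PowerSeries.coeff_map, Polynomial.coeff_coe, Polynomial.coeff_coe,
            Polynomial.coeff_map]
        rw [e1, e2, hq, Polynomial.coe_mul]
      have hD0 : D.map ψ ≠ 0 := by
        intro h0
        have := congrArg (fun r : ℂ[X] => r.coeff 0) h0
        simp only [Polynomial.coeff_map, hD, map_one, Polynomial.coeff_zero] at this
        exact one_ne_zero this
      have hne : PowerSeries.map ψ (D : PowerSeries ℤ[X]) ≠ 0 := by
        intro h0
        have := congrArg (PowerSeries.coeff 0) h0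
        rw [PowerSeries.coeff_map, Polynomial.coeff_coe, hD, map_one, map_zero] at this
        exact one_ne_zero this
      have h2 : PowerSeries.map ψ Q = (q : PowerSeries ℂ) := mul_left_cancel₀ hne h1
      have h3 : ψ (PowerSeries.coeff n Q) = q.coeff n := by
        have := congrArg (PowerSeries.coeff n) h2
        rwa [PowerSeries.coeff_map, Polynomial.coeff_coe] at this
      have h4 : q.coeff n = 0 := by
        by_cases hq0 : q = 0
        · simp [hq0]
        · apply Polynomial.coeff_eq_zero_of_natDegree_lt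
          have := congrArg Polynomial.natDegree hq
          rw [Polynomial.natDegree_mul hD0 hq0] at this
          have h5 : (A.map ψ).natDegree ≤ A.natDegree := Polynomial.natDegree_map_le
          omega
      exact h3.trans h4
    -- infinitely many roots
    have hmap : (PowerSeries.coeff n Q).map (Int.castRingHom ℂ) = 0 := by
      apply Polynomial.eq_zero_of_infinite_isRoot
      apply Set.Infinite.mono (s := (fun p : ℕ => ((p : ℂ))⁻¹) '' {p : ℕ | 2 ≤ p})
      · rintro _ ⟨p, hp, rfl⟩
        have := hroot p hp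
        simp only [ps, Polynomial.coe_eval₂RingHom, Polynomial.eval₂_eq_eval_map] at this
        exact this
      · apply Set.Infinite.image
        · intro a ha b hb hab
          simp only [inv_inj, Nat.cast_inj] at hab
          exact hab
        · exact Set.infinite_of_not_bddAbove (fun ⟨M, hM⟩ => by
            have := hM (show M + 2 ∈ {p : ℕ | 2 ≤ p} by simp)
            omega)
    exact (Polynomial.map_eq_zero_iff (RingHom.injective_int _)).1 hmap
  refine ⟨PowerSeries.trunc (A.natDegree + 1) Q, ?_⟩
  have hT : ((PowerSeries.trunc (A.natDegree + 1) Q : ℤ[X][X]) : PowerSeries ℤ[X]) = Q := by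
    ext k : 1
    rw [Polynomial.coeff_coe, PowerSeries.coeff_trunc]
    split_ifs with hk
    · rfl
    · exact (hvan k (by omega)).symm
  apply Polynomial.coe_injective
  rw [Polynomial.coe_mul, hT, hQD]

open Pool.Agent.W425.BM in
theorem main : Pool.Agent.W425.BM.TaskTR := by
  intro n k m S l l' P hl hl' hS h
  classical
  -- the polynomial of a list
  let G : List (Fin n → ℕ) → ℤ[X][X] := fun L =>
    (L.map fun a => (1 : ℤ[X][X]) - Polynomial.C (Polynomial.X ^ (∑ i, a i)) * Polynomial.X ^ (Pool.Agent.W426.SM.gord m a)).prod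
  have hG : ∀ L : List (Fin n → ℕ), ((G L : ℤ[X][X]) : PowerSeries ℤ[X]) = den m L := by
    intro L
    induction L with
    | nil => simp [G, den]
    | cons a L ih =>
      simp only [G, den, List.map_cons, List.prod_cons, Polynomial.coe_mul, Polynomial.coe_sub,
        Polynomial.coe_one, Polynomial.coe_C, Polynomial.coe_pow, Polynomial.coe_X] at ih ⊢
      rw [ih]
  have hG0 : ∀ L : List (Fin n → ℕ), (∀ a ∈ L, a ≠ 0 ∧ 0 < Pool.Agent.W426.SM.gord m a) → (G L).coeff 0 = 1 := by
    intro L
    induction L with
    | nil => intro _; simp [G]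
    | cons a L ih =>
      intro hL
      have h1 := ih (fun b hb => hL b (List.mem_cons_of_mem _ hb))
      have h2 := (hL a List.mem_cons_self).2
      simp only [G, List.map_cons, List.prod_cons, Polynomial.mul_coeff_zero,
        Polynomial.coeff_sub, Polynomial.coeff_one_zero] at h1 ⊢
      rw [h1]
      simp only [Polynomial.coeff_X_pow, mul_one]
      rw [if_neg h2.ne]
      simp
  have hGe : ∀ (L : List (Fin n → ℕ)) (p : ℕ) (t : ℂ),
      ((G L).map (ps p)).eval t = denx m L (p : ℂ)⁻¹ t := by
    intro L p t
    induction L with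
    | nil => simp [G, denx]
    | cons a L ih =>
      simp only [G, denx, List.map_cons, List.prod_cons, Polynomial.map_mul, Polynomial.eval_mul]
        at ih ⊢
      rw [ih]
      congr 1
      simp [Polynomial.map_sub, Polynomial.map_mul, Polynomial.map_pow]
  obtain ⟨Q, hQ⟩ := core (G l) (P * G l') (hG0 l hl) (by
    intro p hp
    obtain ⟨B, hB⟩ := h p hp
    refine ⟨B, ?_⟩
    apply Polynomial.eq_of_infinite_eval_eq
    apply Set.Infinite.mono (s := Metric.ball (0 : ℂ) 1)
    · intro t ht
      have ht' : ‖t‖ < 1 := by simpa using ht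
      have h1 := hB t ht'
      show ((P * G l').map (ps p)).eval t = ((G l).map (ps p) * B).eval t
      rw [Polynomial.map_mul, Polynomial.eval_mul, Polynomial.eval_mul, hGe, hGe, mul_comm _ (B.eval t),
        ← h1, evx, Polynomial.eval₂_eq_eval_map]
    · exact infinite_of_mem_nhds (0 : ℂ) (Metric.ball_mem_nhds 0 one_pos))
  refine ⟨Q, ?_⟩
  have hne : den m l ≠ 0 := by
    rw [← hG]
    intro h0
    have := congrArg (PowerSeries.coeff 0) h0
    rw [Polynomial.coeff_coe, hG0 l hl, map_zero] at this
    exact one_ne_zero this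
  apply mul_left_cancel₀ hne
  have h1 : ((P * G l' : ℤ[X][X]) : PowerSeries ℤ[X]) = ((G l * Q : ℤ[X][X]) : PowerSeries ℤ[X]) := by
    rw [hQ]
  rw [Polynomial.coe_mul, Polynomial.coe_mul, hG, hG, ← hS] at h1
  calc den m l * (S * den m l') = S * den m l * den m l' := by ring
    _ = den m l * Q := h1

end Pool.Agent.W818.BM
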